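import Pool.Agent.Helper46_PathVar.Down

/-!
# Balls inside the path: maximal function with capped radii, runs and selection of an edge

All statements are about functions on `{0, …, N}` written as functions on `ℕ`; a ball
`B v r = {v - r, …, v + r}` is admissible if it lies inside `{0, …, N}`.
-/

set_option autoImplicit false

open Finset

namespace Pool.Agent.Helper40_PV

open Pool.Agent.Helper51_Max Pool.Agent.Helper46_PathVar

/-- the ball of radius `r` around `v` lies inside `{0, …, N}` -/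
def Fits (N v r : ℕ) : Prop := r ≤ v ∧ v + r ≤ N

/-- the ball -/
def B (v r : ℕ) : Finset ℕ := Icc (v - r) (v + r)

lemma card_B {N v r : ℕ} (h : Fits N v r) : ((B v r).card : ℝ) = 2 * r + 1 := by
  have h1 : (B v r).card = 2 * r + 1 := by
    simp only [B, Nat.card_Icc]
    have := h.1
    omega
  rw [h1]; push_cast; ring

lemma B_zero (v : ℕ) : B v 0 = {v} := by
  ext i; simp only [B, mem_Icc, mem_singleton]; omega

/-- `M` is the maximal function of `g` over the balls inside `{0, …, N}`. -/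
structure IsMaxE (N : ℕ) (g M : ℕ → ℝ) : Prop where
  le : ∀ v r, Fits N v r → ∑ i ∈ B v r, g i ≤ M v * (2 * r + 1)
  attained : ∀ v ≤ N, ∃ r : ℕ, Fits N v r ∧ M v * (2 * r + 1) = ∑ i ∈ B v r, g i

/-- the same with radii at most `ρ`; `K v` is attained at the radius `R v` -/
structure IsCapE (N : ℕ) (g : ℕ → ℝ) (ρ : ℕ) (K : ℕ → ℝ) (R : ℕ → ℕ) : Prop where
  le : ∀ v r, Fits N v r → r ≤ ρ → ∑ i ∈ B v r, g i ≤ K v * (2 * r + 1)
  fits : ∀ v ≤ N, Fits N v (R v)
  cap_le : ∀ v ≤ N, R v ≤ ρ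
  attained : ∀ v ≤ N, K v * (2 * R v + 1) = ∑ i ∈ B v (R v), g i

lemma exists_capE (N : ℕ) (g : ℕ → ℝ) (ρ : ℕ) : ∃ K R, IsCapE N g ρ K R := by
  classical
  have key : ∀ v : ℕ, ∃ r : ℕ, v ≤ N → (Fits N v r ∧ r ≤ ρ ∧
      ∀ r' : ℕ, Fits N v r' → r' ≤ ρ → (∑ i ∈ B v r', g i) / (2 * r' + 1) ≤
        (∑ i ∈ B v r, g i) / (2 * r + 1)) := by
    intro v
    by_cases hv : v ≤ N
    · have hne : ((range (N + 1)).filter (fun r => Fits N v r ∧ r ≤ ρ)).Nonempty := by
        refine ⟨0, ?_⟩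
        rw [mem_filter, mem_range]
        exact ⟨by omega, ⟨by omega, by omega⟩, by omega⟩
      obtain ⟨r, hr, hmax⟩ := exists_max_image
        ((range (N + 1)).filter (fun r => Fits N v r ∧ r ≤ ρ))
        (fun r : ℕ => (∑ i ∈ B v r, g i) / (2 * (r : ℝ) + 1)) hne
      refine ⟨r, fun _ => ⟨(mem_filter.mp hr).2.1, (mem_filter.mp hr).2.2, fun r' hr' hρ => ?_⟩⟩
      refine hmax r' ?_
      rw [mem_filter, mem_range]
      exact ⟨by have := hr'.1; omega, hr', hρ⟩
    · exact ⟨0, fun h => absurd h hv⟩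
  choose R hR using key
  refine ⟨fun v => (∑ i ∈ B v (R v), g i) / (2 * (R v : ℝ) + 1), R, ?_, ?_, ?_, ?_⟩
  · intro v r hr hρ
    have h1 := (hR v (by have := hr.2; omega)).2.2 r hr hρ
    have h2 : (0 : ℝ) < 2 * r + 1 := by positivity
    rwa [div_le_iff₀ h2] at h1
  · intro v hv
    exact (hR v hv).1
  · intro v hv
    exact (hR v hv).2.1
  · intro v hv
    have h2 : (0 : ℝ) < 2 * (R v : ℝ) + 1 := by positivity
    field_simp

variable {N : ℕ} {g M K : ℕ → ℝ} {R : ℕ → ℕ} {ρ : ℕ} {lam : ℝ} {a b : ℕ}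

lemma IsCapE.le_max (hK : IsCapE N g ρ K R) (h : IsMaxE N g M) {v : ℕ} (hv : v ≤ N) :
    K v ≤ M v := by
  have h1 := hK.attained v hv
  have h2 := h.le v (R v) (hK.fits v hv)
  have h3 : (0 : ℝ) < 2 * (R v : ℝ) + 1 := by positivity
  rw [← h1] at h2
  exact le_of_mul_le_mul_right h2 h3

lemma IsMaxE.g_le (h : IsMaxE N g M) {v : ℕ} (hv : v ≤ N) : g v ≤ M v := by
  have h1 := h.le v 0 ⟨by omega, by omega⟩
  rw [B_zero] at h1
  simpa using h1

/-- sites lost when the ball moves to the right and shrinks -/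
def lostR (v r : ℕ) : Finset ℕ := B v r \ B (v + 1) (r - 1)

/-- sites lost when the ball moves to the left and shrinks -/
def lostL (v r : ℕ) : Finset ℕ := B v r \ B (v - 1) (r - 1)

lemma subR {v r : ℕ} (hr : 1 ≤ r) : B (v + 1) (r - 1) ⊆ B v r := by
  intro i; simp only [B, mem_Icc]; omega

lemma subL {v r : ℕ} (hv : 1 ≤ v) (hr : 1 ≤ r) : B (v - 1) (r - 1) ⊆ B v r := by
  intro i; simp only [B, mem_Icc]; omega

lemma card_lostR {v r : ℕ} (hr : 1 ≤ r) : (lostR v r).card ≤ 2 := by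
  have h : lostR v r ⊆ Ico (v - r) (v - r + 2) := by
    intro i
    simp only [lostR, B, mem_sdiff, mem_Icc, mem_Ico, not_and_or, not_le]
    omega
  calc (lostR v r).card ≤ (Ico (v - r) (v - r + 2)).card := card_le_card h
    _ = 2 := by simp

lemma card_lostL {v r : ℕ} (hv : 1 ≤ v) (hr : 1 ≤ r) : (lostL v r).card ≤ 2 := by
  have h : lostL v r ⊆ Ico (v + r - 1) (v + r + 1) := by
    intro i
    simp only [lostL, B, mem_sdiff, mem_Icc, mem_Ico, not_and_or, not_le]
    omega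
  calc (lostL v r).card ≤ (Ico (v + r - 1) (v + r + 1)).card := card_le_card h
    _ ≤ 2 := by simp only [Nat.card_Ico]; omega

lemma IsCapE.radius_pos (hK : IsCapE N g ρ K R) {v : ℕ} (hv : v ≤ N) (hg : g v < K v) :
    1 ≤ R v := by
  by_contra hcon
  have h0 : R v = 0 := by omega
  have h1 := hK.attained v hv
  rw [h0, B_zero] at h1
  simp at h1
  linarith

lemma IsCapE.lostR (hK : IsCapE N g ρ K R) {v : ℕ} (hv : v + 1 ≤ N) (hg : g v ≤ lam)
    (h1 : K (v + 1) ≤ lam) (h2 : lam < K v) :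
    ∃ p ∈ lostR v (R v), (2 * (R v : ℝ) + 1) * (K v - lam) ≤ 2 * (g p - lam) := by
  have hvN : v ≤ N := by omega
  have hr := hK.radius_pos hvN (lt_of_le_of_lt hg h2)
  have hfit := hK.fits v hvN
  have hfit' : Fits N (v + 1) (R v - 1) := ⟨by have := hfit.1; omega, by have := hfit.2; omega⟩
  have hcard := card_B hfit
  have hcard' := card_B hfit'
  have hpos : 0 < (B v (R v)).card := card_pos.mpr ⟨v, by simp only [B, mem_Icc]; omega⟩
  rw [← hcard]
  refine lost_aux (subR hr) (card_lostR hr) ?_ ?_ h2 hpos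
  · rw [hcard]; exact hK.attained v hvN
  · have h3 := hK.le (v + 1) (R v - 1) hfit' (by have := hK.cap_le v hvN; omega)
    rw [hcard']
    refine h3.trans ?_
    exact mul_le_mul_of_nonneg_right h1 (by positivity)

lemma IsCapE.lostL (hK : IsCapE N g ρ K R) {v : ℕ} (hv : 1 ≤ v) (hvN : v ≤ N)
    (hg : g v ≤ lam) (h1 : K (v - 1) ≤ lam) (h2 : lam < K v) :
    ∃ p ∈ lostL v (R v), (2 * (R v : ℝ) + 1) * (K v - lam) ≤ 2 * (g p - lam) := by
  have hr := hK.radius_pos hvN (lt_of_le_of_lt hg h2)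
  have hfit := hK.fits v hvN
  have hfit' : Fits N (v - 1) (R v - 1) := ⟨by have := hfit.1; omega, by have := hfit.2; omega⟩
  have hcard := card_B hfit
  have hcard' := card_B hfit'
  have hpos : 0 < (B v (R v)).card := card_pos.mpr ⟨v, by simp only [B, mem_Icc]; omega⟩
  rw [← hcard]
  refine lost_aux (subL hv hr) (card_lostL hv hr) ?_ ?_ h2 hpos
  · rw [hcard]; exact hK.attained v hvN
  · have h3 := hK.le (v - 1) (R v - 1) hfit' (by have := hK.cap_le v hvN; omega)
    rw [hcard']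
    refine h3.trans ?_
    exact mul_le_mul_of_nonneg_right h1 (by positivity)

/-- A down edge of `M` at the level `lam` whose run contains no point with `g > lam` is the right
end of a detached run. -/
lemma exists_runE (h : IsMaxE N g M) (hb : b + 1 ≤ N) (h1 : M (b + 1) ≤ lam) (h2 : lam < M b)
    (hdet : ∀ t ≤ b, (∀ i, t ≤ i → i ≤ b → lam < M i) → g t ≤ lam) :
    ∃ a, IsRun N g M lam a b := by
  rcases run_left (fun i => lam < M i) b b le_rfl h2 with ⟨a, _, h4, h5, h6, h7⟩ | hall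
  · refine ⟨a, h4, h5, hb, not_lt.mp h6, h1, h7, fun i hi hi' => ?_⟩
    exact hdet i hi' fun j hj hj' => h7 j (by omega) hj'
  · exfalso
    have h3 : g 0 ≤ lam := hdet 0 (by omega) fun j _ hj' => hall j (by omega) hj'
    have h4 : lam < M 0 := hall 0 (by omega) (by omega)
    obtain ⟨r, hr, hr'⟩ := h.attained 0 (by omega)
    have h5 : r = 0 := by have := hr.1; omega
    subst h5
    rw [B_zero] at hr'
    simp at hr'
    linarith

/-- the smallest radius of a ball centred in the run with mean larger than `lam` -/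
lemma exists_minE (h : IsMaxE N g M) (hrun : IsRun N g M lam a b) :
    ∃ m : ℕ, m ≤ N ∧ (∃ u, a ≤ u ∧ u ≤ b ∧ Fits N u m ∧
      lam * (2 * (m : ℝ) + 1) < ∑ i ∈ B u m, g i) ∧
      ∀ u r : ℕ, a ≤ u → u ≤ b → Fits N u r → lam * (2 * (r : ℝ) + 1) < ∑ i ∈ B u r, g i →
        m ≤ r := by
  classical
  have hbN := hrun.b_lt
  let P : ℕ → Prop := fun m => ∃ u, a ≤ u ∧ u ≤ b ∧ Fits N u m ∧
      lam * (2 * (m : ℝ) + 1) < ∑ i ∈ B u m, g i
  have hex : ∃ m, P m := by
    obtain ⟨r, hr, hr'⟩ := h.attained b (by omega)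
    have hpos : (0 : ℝ) < 2 * (r : ℝ) + 1 := by positivity
    refine ⟨r, b, hrun.ab, le_rfl, hr, ?_⟩
    rw [← hr']
    exact mul_lt_mul_of_pos_right (hrun.high b hrun.ab le_rfl) hpos
  refine ⟨Nat.find hex, ?_, Nat.find_spec hex, fun u r h1 h2 h3 h4 =>
    Nat.find_min' hex ⟨u, h1, h2, h3, h4⟩⟩
  obtain ⟨u, _, h2, h3, _⟩ := Nat.find_spec hex
  have := h3.2
  omega

open Classical in
/-- the sites lost when the optimal ball of the larger vertex moves over the edge -/
noncomputable def lostS (K : ℕ → ℝ) (R : ℕ → ℕ) (x : ℕ) : Finset ℕ :=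
  if K (x + 1) < K x then lostR x (R x) else lostL (x + 1) (R (x + 1))

open Classical in
/-- the largest value of `g` at a lost site -/
noncomputable def Fv (g K : ℕ → ℝ) (R : ℕ → ℕ) (x : ℕ) : ℝ :=
  if h : (lostS K R x).Nonempty then (lostS K R x).sup' h g else 0

/-- the cardinality of the optimal ball -/
noncomputable def crd (K : ℕ → ℝ) (R : ℕ → ℕ) (x : ℕ) : ℝ := 2 * (R (vtx K x) : ℝ) + 1

lemma crd_nonneg (K : ℕ → ℝ) (R : ℕ → ℕ) (x : ℕ) : 0 ≤ crd K R x := by
  unfold crd; positivity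

lemma Fv_spec {x : ℕ} (p : ℕ) (hp : p ∈ lostS K R x) :
    ∃ p' ∈ lostS K R x, g p' = Fv g K R x ∧ g p ≤ Fv g K R x := by
  classical
  have hne : (lostS K R x).Nonempty := ⟨p, hp⟩
  obtain ⟨p', hp', h1⟩ := exists_mem_eq_sup' hne g
  refine ⟨p', hp', ?_, ?_⟩
  · unfold Fv; rw [dif_pos hne, h1]
  · unfold Fv; rw [dif_pos hne]; exact le_sup' g hp

/-- distance of the charged vertex of the edge `(x, x + 1)` to the two walls `p < q` -/
def dd (p q x : ℕ) : ℕ := min (max (x - p) (q - x)) (max (x + 1 - p) (q - (x + 1)))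

/-- **Selection of an edge.** -/
theorem selectE (h : IsMaxE N g M) (hrun : IsRun N g M lam a b) (hK : IsCapE N g ρ K R)
    {m : ℕ} (hm : ∃ u, a ≤ u ∧ u ≤ b ∧ Fits N u m ∧ lam * (2 * (m : ℝ) + 1) < ∑ i ∈ B u m, g i)
    (hmin : ∀ u r : ℕ, a ≤ u → u ≤ b → Fits N u r →
      lam * (2 * (r : ℝ) + 1) < ∑ i ∈ B u r, g i → m ≤ r) (hρ : m ≤ ρ) :
    ∃ x, x < N ∧ a ≤ vtx K x ∧ vtx K x ≤ b ∧ m ≤ R (vtx K x) ∧ min (K x) (K (x + 1)) ≤ lam ∧
      lam < K (vtx K x) ∧ crd K R x * (K (vtx K x) - lam) ≤ 2 * (Fv g K R x - lam) ∧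
      ∀ t, lam < t → t ≤ Fv g K R x →
        ∃ p q, IsGap N g t p q ∧ p ≤ x ∧ x + 1 ≤ q ∧ dd p q x ≤ ρ := by
  classical
  have hbN := hrun.b_lt
  have ha := hrun.a_pos
  obtain ⟨u, hau, hub, hfit, hbig⟩ := hm
  have huN : u ≤ N := by omega
  have hKu : lam < K u := by
    have h1 := hK.le u m hfit hρ
    have hpos : (0 : ℝ) < 2 * (m : ℝ) + 1 := by positivity
    exact lt_of_mul_lt_mul_right (lt_of_lt_of_le hbig h1) hpos.le
  have hKa : ¬ lam < K (a - 1) := not_lt.mpr ((hK.le_max h (by omega)).trans hrun.left)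
  have hKb : ¬ lam < K (b + 1) := not_lt.mpr ((hK.le_max h hbN).trans hrun.right)
  obtain ⟨a', h1, h2, h3, h4⟩ := run_left' (fun i => lam < K i) hau ha hKu hKa
  obtain ⟨b', h5, h6, h7, h8⟩ := run_right (fun i => lam < K i) (b + 1 - u) u hKu (by
    have : u + (b + 1 - u) = b + 1 := by omega
    rw [this]; exact hKb)
  have hb'b : b' ≤ b := by omega
  have ha'1 : 1 ≤ a' := by omega
  have hb'K : lam < K b' := h8 b' h5 le_rfl
  have ha'K : lam < K a' := h4 a' le_rfl h2
  rw [not_lt] at h3 h7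
  have hsub : a' - 1 + 1 = a' := by omega
  -- the two edges
  have hcR : K (b' + 1) < K b' := lt_of_le_of_lt h7 hb'K
  have hcL : ¬ K (a' - 1 + 1) < K (a' - 1) := by rw [hsub]; exact not_lt.mpr (h3.trans ha'K.le)
  have hvR : vtx K b' = b' := by unfold vtx; rw [if_pos hcR]
  have hvL : vtx K (a' - 1) = a' := by unfold vtx; rw [if_neg hcL, hsub]
  have hlR : lostS K R b' = lostR b' (R b') := by unfold lostS; rw [if_pos hcR]
  have hlL : lostS K R (a' - 1) = lostL a' (R a') := by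
    unfold lostS; rw [if_neg hcL, hsub]
  -- radii
  have hposR : (0 : ℝ) < 2 * (R b' : ℝ) + 1 := by positivity
  have hposL : (0 : ℝ) < 2 * (R a' : ℝ) + 1 := by positivity
  have hmR : m ≤ R b' := by
    apply hmin _ _ (by omega) hb'b (hK.fits b' (by omega))
    rw [← hK.attained b' (by omega)]
    exact mul_lt_mul_of_pos_right hb'K hposR
  have hmL : m ≤ R a' := by
    apply hmin _ _ h1 (by omega) (hK.fits a' (by omega))
    rw [← hK.attained a' (by omega)]
    exact mul_lt_mul_of_pos_right ha'K hposL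
  -- lost sites
  obtain ⟨pR, hpR, hpR'⟩ := hK.lostR (v := b') (by omega) (hrun.low b' (by omega) hb'b) h7 hb'K
  obtain ⟨pL, hpL, hpL'⟩ := hK.lostL (v := a') ha'1 (by omega) (hrun.low a' h1 (by omega)) h3 ha'K
  rw [← hlR] at hpR
  rw [← hlL] at hpL
  obtain ⟨p, hp, hpF, hpge⟩ := Fv_spec (g := g) pR hpR
  obtain ⟨q, hq, hqF, hqge⟩ := Fv_spec (g := g) pL hpL
  have hFR : (2 * (R b' : ℝ) + 1) * (K b' - lam) ≤ 2 * (Fv g K R b' - lam) := by
    linarith
  have hFL : (2 * (R a' : ℝ) + 1) * (K a' - lam) ≤ 2 * (Fv g K R (a' - 1) - lam) := by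
    linarith
  have hFR' : lam < Fv g K R b' := by
    have := mul_pos hposR (sub_pos.mpr hb'K)
    linarith
  have hFL' : lam < Fv g K R (a' - 1) := by
    have := mul_pos hposL (sub_pos.mpr ha'K)
    linarith
  -- location of the lost sites
  have hrR := hK.radius_pos (v := b') (by omega)
    (lt_of_le_of_lt (hrun.low b' (by omega) hb'b) hb'K)
  have hrL := hK.radius_pos (v := a') (by omega)
    (lt_of_le_of_lt (hrun.low a' h1 (by omega)) ha'K)
  have hcR' := hK.cap_le b' (by omega)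
  have hcL' := hK.cap_le a' (by omega)
  have hfR := hK.fits b' (by omega)
  have hfL := hK.fits a' (by omega)
  rw [hlR] at hp
  rw [hlL] at hq
  have hp2 : p < a := by
    by_contra hcon
    have h9 : p ≤ b := by
      simp only [lostR, B, mem_sdiff, mem_Icc, not_and_or, not_le] at hp
      omega
    have := hrun.low p (by omega) h9
    linarith
  have hq2 : b < q := by
    by_contra hcon
    have h9 : a ≤ q := by
      simp only [lostL, B, mem_sdiff, mem_Icc, not_and_or, not_le] at hq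
      omega
    have := hrun.low q h9 (by omega)
    linarith
  have hp3 : b' ≤ p + R b' := by
    simp only [lostR, B, mem_sdiff, mem_Icc] at hp
    omega
  have hq3 : q ≤ a' + R a' := by
    simp only [lostL, B, mem_sdiff, mem_Icc] at hq
    omega
  have hqN : q ≤ N := hq3.trans hfL.2
  have hgap : ∀ t, lam < t → t ≤ Fv g K R b' → t ≤ Fv g K R (a' - 1) →
      ∃ p' q', IsGap N g t p' q' ∧ p ≤ p' ∧ p' < a' ∧ b' < q' ∧ q' ≤ q := by
    intro t ht ht1 ht2
    refine exists_gap (by omega) (by omega) (by omega) hqN (by rw [hpF]; exact ht1)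
      (by rw [hqF]; exact ht2) ?_
    intro i hi hi'
    exact lt_of_le_of_lt (hrun.low i (by omega) (by omega)) ht
  rcases le_total (Fv g K R b') (Fv g K R (a' - 1)) with hle | hle
  · refine ⟨b', by omega, by rw [hvR]; omega, by rw [hvR]; exact hb'b, ?_, ?_, ?_, ?_, ?_⟩
    · rw [hvR]; exact hmR
    · exact (min_le_right _ _).trans h7
    · rw [hvR]; exact hb'K
    · unfold crd; rw [hvR]; exact hFR
    · intro t ht ht1
      obtain ⟨p', q', h9, h10, h11, h12, h13⟩ := hgap t ht ht1 (ht1.trans hle)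
      refine ⟨p', q', h9, by omega, by omega, (min_le_left _ _).trans (max_le ?_ ?_)⟩
      · omega
      · omega
  · refine ⟨a' - 1, by omega, by rw [hvL]; omega, by rw [hvL]; omega, ?_, ?_, ?_, ?_, ?_⟩
    · rw [hvL]; exact hmL
    · exact (min_le_left _ _).trans h3
    · rw [hvL]; exact ha'K
    · unfold crd; rw [hvL]; exact hFL
    · intro t ht ht1
      obtain ⟨p', q', h9, h10, h11, h12, h13⟩ := hgap t ht (ht1.trans hle) ht1
      refine ⟨p', q', h9, by omega, by omega, (min_le_right _ _).trans (max_le ?_ ?_)⟩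
      · omega
      · omega

end Pool.Agent.Helper40_PV
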