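import Pool.Agent.Helper40_PV.Cap

/-!
# Weights of the caps, good levels, measures of gaps over an edge
-/

set_option autoImplicit false

open Finset

namespace Pool.Agent.Helper40_PV

open Pool.Agent.Helper51_Max Pool.Agent.Helper46_PathVar

variable {N : ℕ} {g M : ℕ → ℝ} {lam : ℝ} {a b : ℕ}

/-- the weight of the cap `ρ` on the radii -/
noncomputable def wr (N ρ : ℕ) : ℝ :=
  if ρ < N then 1 / (2 * (ρ : ℝ) + 1) - 1 / (2 * (ρ : ℝ) + 3) else 1 / (2 * (N : ℝ) + 1)

lemma wr_nonneg (N ρ : ℕ) : 0 ≤ wr N ρ := by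
  unfold wr
  split_ifs
  · rw [sub_nonneg]
    exact one_div_le_one_div_of_le (by positivity) (by linarith)
  · positivity

/-- `∑_{ρ = m}^{N} wr ρ = 1 / (2 m + 1)` -/
lemma sum_wr (N m : ℕ) (hmN : m ≤ N) :
    ∑ ρ ∈ Icc m N, wr N ρ = 1 / (2 * (m : ℝ) + 1) := by
  obtain ⟨d, hd⟩ : ∃ d, m + d = N := ⟨N - m, by omega⟩
  induction d generalizing m with
  | zero =>
    have h1 : m = N := by omega
    subst h1
    rw [Icc_self, sum_singleton]
    unfold wr
    rw [if_neg (by omega)]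
  | succ d ih =>
    rw [← add_sum_Ioc_eq_sum_Icc (by omega)]
    have h2 : Ioc m N = Icc (m + 1) N := by
      ext i; simp only [mem_Ioc, mem_Icc]; omega
    rw [h2, ih (m + 1) (by omega) (by omega)]
    unfold wr
    rw [if_pos (by omega)]
    push_cast
    have h3 : (2 * ((m : ℝ) + 1) + 1) = 2 * (m : ℝ) + 3 := by ring
    rw [h3]
    ring

/-- the data of all caps -/
structure CapsE (N : ℕ) (g : ℕ → ℝ) where
  K : ℕ → ℕ → ℝ
  R : ℕ → ℕ → ℕ
  cap : ∀ ρ, IsCapE N g ρ (K ρ) (R ρ)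

lemma exists_capsE (N : ℕ) (g : ℕ → ℝ) : Nonempty (CapsE N g) := by
  have h : ∀ ρ : ℕ, ∃ K R, IsCapE N g ρ K R := fun ρ => exists_capE N g ρ
  choose K R hKR using h
  exact ⟨⟨K, R, hKR⟩⟩

/-- the levels at which the edge `x` is good for the cap `ρ` -/
def goodE (N : ℕ) (g K : ℕ → ℝ) (R : ℕ → ℕ) (ρ x : ℕ) : Set ℝ :=
  {lam | min (K x) (K (x + 1)) ≤ lam ∧ lam < K (vtx K x) ∧
    crd K R x * (K (vtx K x) - lam) ≤ 2 * (Fv g K R x - lam) ∧
    ∀ t, lam < t → t ≤ Fv g K R x →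
      ∃ p q, IsGap N g t p q ∧ p ≤ x ∧ x + 1 ≤ q ∧ dd p q x ≤ ρ}

open Classical in
/-- the lowest good level -/
noncomputable def loE (N : ℕ) (g K : ℕ → ℝ) (R : ℕ → ℕ) (ρ x : ℕ) : ℝ :=
  if (goodE N g K R ρ x).Nonempty then sInf (goodE N g K R ρ x) else K (vtx K x)

lemma goodE_bdd {K : ℕ → ℝ} {R : ℕ → ℕ} {ρ x : ℕ} : BddBelow (goodE N g K R ρ x) :=
  ⟨min (K x) (K (x + 1)), fun _ h => h.1⟩

lemma loE_le_of_good {K : ℕ → ℝ} {R : ℕ → ℕ} {ρ x : ℕ} (h : lam ∈ goodE N g K R ρ x) :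
    loE N g K R ρ x ≤ lam := by
  unfold loE
  rw [if_pos ⟨lam, h⟩]
  exact csInf_le goodE_bdd h

lemma loE_le {K : ℕ → ℝ} {R : ℕ → ℕ} {ρ x : ℕ} : loE N g K R ρ x ≤ K (vtx K x) := by
  unfold loE
  split_ifs with h
  · obtain ⟨l, hl⟩ := h
    exact (csInf_le goodE_bdd hl).trans hl.2.1.le
  · exact le_rfl

open Classical in
/-- **(B)** An interval of levels all of whose members have a gap over the edge `x` with the
property `P`. -/
theorem le_sum_muP (P : ℕ → ℕ → Prop) {lo F : ℝ} (hlo : lo ≤ F)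
    (h : ∀ t, lo < t → t ≤ F → ∃ p q, IsGap N g t p q ∧ P p q) :
    F - lo ≤ ∑ z ∈ (pairs N).filter (fun z => P z.1 z.2), mu g z.1 z.2 := by
  have h1 := layer_ioc (Finset.univ : Finset Unit)
    ((pairs N).filter (fun z => P z.1 z.2))
    (fun _ => 1) (fun _ => lo) (fun _ => F) (fun _ => 1) (fun z => mx g z.1 z.2)
    (fun z => mn g z.1 z.2) (fun _ _ => hlo) (fun z _ => mx_le g _ _) ?_
  · simpa [mu] using h1
  · intro t
    rw [Fintype.sum_unique]
    by_cases ht : t ∈ Set.Ioc lo F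
    · rw [Set.indicator_of_mem ht]
      obtain ⟨p, q, hgap, h2⟩ := h t ht.1 ht.2
      have hmem : (p, q) ∈ (pairs N).filter (fun z => P z.1 z.2) := by
        rw [mem_filter, mem_pairs]
        exact ⟨⟨hgap.lt, hgap.le⟩, h2⟩
      have h5 := single_le_sum (f := fun z : ℕ × ℕ =>
        (Set.Ioc (mx g z.1 z.2) (mn g z.1 z.2)).indicator (fun _ => (1 : ℝ)) t)
        (fun z _ => Set.indicator_nonneg (fun _ _ => zero_le_one) _) hmem
      have h6 := (gap_iff hgap.lt hgap.le).mp hgap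
      rw [Set.indicator_of_mem h6] at h5
      exact h5
    · rw [Set.indicator_of_notMem ht]
      exact sum_nonneg fun z _ => Set.indicator_nonneg (fun _ _ => zero_le_one) _

/-- the pair `(p, q)` counts for the edge `x` and the cap `ρ` -/
def Cnt (ρ x p q : ℕ) : Prop := p ≤ x ∧ x + 1 ≤ q ∧ dd p q x ≤ ρ

instance (ρ x p q : ℕ) : Decidable (Cnt ρ x p q) := by
  unfold Cnt; infer_instance

/-- the measure of the gaps over the edge `x` with distance at most `ρ` -/
noncomputable def gsumE (N : ℕ) (g : ℕ → ℝ) (ρ x : ℕ) : ℝ :=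
  ∑ z ∈ (pairs N).filter (fun z => Cnt ρ x z.1 z.2), mu g z.1 z.2

lemma gsumE_nonneg (N : ℕ) (g : ℕ → ℝ) (ρ x : ℕ) : 0 ≤ gsumE N g ρ x :=
  sum_nonneg fun _ _ => mu_nonneg _ _ _

/-- **(B')** -/
lemma crd_mul_leE {K : ℕ → ℝ} {R : ℕ → ℕ} {ρ x : ℕ} :
    crd K R x * (K (vtx K x) - loE N g K R ρ x) ≤ 2 * gsumE N g ρ x := by
  by_cases hne : (goodE N g K R ρ x).Nonempty
  · have hlo : loE N g K R ρ x = sInf (goodE N g K R ρ x) := by unfold loE; rw [if_pos hne]
    have h1 : crd K R x * (K (vtx K x) - loE N g K R ρ x) ≤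
        2 * (Fv g K R x - loE N g K R ρ x) := by
      have hcl : IsClosed {l : ℝ | crd K R x * (K (vtx K x) - l) ≤ 2 * (Fv g K R x - l)} :=
        isClosed_le (by fun_prop) (by fun_prop)
      have hsub : goodE N g K R ρ x ⊆ {l : ℝ | crd K R x * (K (vtx K x) - l) ≤
          2 * (Fv g K R x - l)} := fun l hl => hl.2.2.1
      have := closure_minimal hsub hcl (csInf_mem_closure hne goodE_bdd)
      rw [hlo]
      exact this
    have h2 : 0 ≤ crd K R x * (K (vtx K x) - loE N g K R ρ x) :=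
      mul_nonneg (crd_nonneg K R x) (sub_nonneg.mpr loE_le)
    have h3 : Fv g K R x - loE N g K R ρ x ≤ gsumE N g ρ x := by
      have h4 := le_sum_muP (N := N) (g := g) (Cnt ρ x) (lo := loE N g K R ρ x)
        (F := Fv g K R x) (by linarith) (by
          intro t ht ht'
          rw [hlo] at ht
          obtain ⟨l, hl, hlt⟩ := exists_lt_of_csInf_lt hne ht
          exact hl.2.2.2 t hlt ht')
      unfold gsumE
      refine h4.trans (le_of_eq ?_)
      refine sum_congr ?_ fun _ _ => rfl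
      ext z
      simp only [mem_filter]
    linarith
  · have hlo : loE N g K R ρ x = K (vtx K x) := by unfold loE; rw [if_neg hne]
    rw [hlo, sub_self, mul_zero]
    exact mul_nonneg zero_le_two (gsumE_nonneg _ _ _ _)

/-- the number of attached down edges of `M` is at most the number of down edges of `g` -/
lemma card_att_leE (h : IsMaxE N g M) (S T : Finset ℕ)
    (hS : ∀ v ∈ S, IsDown N M lam v ∧ Att g M lam v)
    (hT : ∀ v, IsDown N g lam v → v ∈ T) : S.card ≤ T.card := by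
  classical
  have hex : ∀ v, ∃ t, v ∈ S → t ≤ v ∧ lam < g t ∧ ∀ i, t < i → i ≤ v → g i ≤ lam := by
    intro v
    by_cases hv : v ∈ S
    · obtain ⟨t, h1, _, h3⟩ := (hS v hv).2
      obtain ⟨t', h4, h5, h6⟩ := exists_last g lam v ⟨t, h1, h3⟩
      exact ⟨t', fun _ => ⟨h4, h5, h6⟩⟩
    · exact ⟨0, fun h => absurd h hv⟩
  choose τ hτ using hex
  have hrun : ∀ v ∈ S, ∀ i, τ v ≤ i → i ≤ v → lam < M i := by
    intro v hv i hi hi'
    obtain ⟨t, h1, h2, h3⟩ := (hS v hv).2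
    have h4 : t ≤ τ v := by
      by_contra hcon
      have := (hτ v hv).2.2 t (by omega) h1
      linarith
    exact h2 i (by omega) hi'
  refine card_le_card_of_injOn τ ?_ ?_
  · intro v hv
    have hv' : v ∈ S := hv
    obtain ⟨⟨h1, h2, h3⟩, _⟩ := hS v hv'
    obtain ⟨h4, h5, h6⟩ := hτ v hv'
    refine hT _ ⟨by omega, ?_, h5⟩
    rcases Nat.eq_or_lt_of_le h4 with h7 | h7
    · rw [h7]
      exact (h.g_le (by omega)).trans h2
    · exact h6 _ (by omega) (by omega)
  · have key : ∀ v ∈ S, ∀ v' ∈ S, τ v = τ v' → ¬ v < v' := by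
      intro v hv v' hv' heq hlt
      have h1 := hrun v' hv' (v + 1) (by have := (hτ v hv).1; omega) (by omega)
      have h2 := (hS v hv).1.2.1
      linarith
    intro v hv v' hv' heq
    have h1 := key v hv v' hv' heq
    have h2 := key v' hv' v hv heq.symm
    omega

end Pool.Agent.Helper40_PV
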