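import Pool.Agent.Helper40_PV.Count
import Pool.Agent.Helper46_PathVar.Main

/-!
# The down variation of the maximal function over the balls inside the path
-/

set_option autoImplicit false

open Finset

namespace Pool.Agent.Helper40_PV

open Pool.Agent.Helper51_Max Pool.Agent.Helper46_PathVar

variable {N : ℕ} {g M : ℕ → ℝ} {lam : ℝ} {a b : ℕ}

/-- the charge of the edge `x` for the cap `ρ` at the level `lam` -/
noncomputable def chargeE (C : CapsE N g) (lam : ℝ) (ρ x : ℕ) : ℝ :=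
  (Set.Ico (loE N g (C.K ρ) (C.R ρ) ρ x) (C.K ρ (vtx (C.K ρ) x))).indicator
    (fun _ => wr N ρ * crd (C.K ρ) (C.R ρ) x) lam

lemma chargeE_nonneg (C : CapsE N g) (lam : ℝ) (ρ x : ℕ) : 0 ≤ chargeE C lam ρ x :=
  Set.indicator_nonneg (fun _ _ => mul_nonneg (wr_nonneg _ _) (crd_nonneg _ _ _)) _

/-- the detached down edges are paid by the charges -/
lemma card_det_leE (h : IsMaxE N g M) (C : CapsE N g) (D : Finset ℕ)
    (hD : ∀ v ∈ D, IsDown N M lam v ∧ ¬ Att g M lam v) :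
    (D.card : ℝ) ≤ ∑ ρ ∈ range (N + 1), ∑ x ∈ range N, chargeE C lam ρ x := by
  classical
  have hex : ∀ v, ∃ a m, ∃ x : ℕ → ℕ, v ∈ D → (IsRun N g M lam a v ∧ m ≤ N ∧
      ∀ ρ, m ≤ ρ → x ρ < N ∧ a ≤ vtx (C.K ρ) (x ρ) ∧ vtx (C.K ρ) (x ρ) ≤ v ∧
        m ≤ C.R ρ (vtx (C.K ρ) (x ρ)) ∧ lam ∈ goodE N g (C.K ρ) (C.R ρ) ρ (x ρ)) := by
    intro v
    by_cases hv : v ∈ D
    · obtain ⟨⟨h1, h2, h3⟩, h4⟩ := hD v hv
      have hdet : ∀ t ≤ v, (∀ i, t ≤ i → i ≤ v → lam < M i) → g t ≤ lam := by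
        intro t ht hall
        by_contra hcon
        exact h4 ⟨t, ht, hall, not_le.mp hcon⟩
      obtain ⟨a, hrun⟩ := exists_runE h (by omega) h2 h3 hdet
      obtain ⟨m, hm2, hm3, hm4⟩ := exists_minE h hrun
      have hsel : ∀ ρ, ∃ x, m ≤ ρ → x < N ∧ a ≤ vtx (C.K ρ) x ∧ vtx (C.K ρ) x ≤ v ∧
          m ≤ C.R ρ (vtx (C.K ρ) x) ∧ lam ∈ goodE N g (C.K ρ) (C.R ρ) ρ x := by
        intro ρ
        by_cases hρ : m ≤ ρ
        · obtain ⟨x, hx1, hx2, hx3, hx4, hx5, hx6, hx7, hx8⟩ :=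
            selectE h hrun (C.cap ρ) hm3 hm4 hρ
          exact ⟨x, fun _ => ⟨hx1, hx2, hx3, hx4, hx5, hx6, hx7, hx8⟩⟩
        · exact ⟨0, fun h => absurd h hρ⟩
      choose x hx using hsel
      exact ⟨a, m, x, fun _ => ⟨hrun, hm2, hx⟩⟩
    · exact ⟨0, 0, fun _ => 0, fun h => absurd h hv⟩
  choose A m x hx using hex
  -- the weights sum to one
  have h1 : ∀ v ∈ D, (1 : ℝ) ≤ ∑ ρ ∈ range (N + 1),
      if m v ≤ ρ then wr N ρ * crd (C.K ρ) (C.R ρ) (x v ρ) else 0 := by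
    intro v hv
    obtain ⟨hrun, hm2, hsel⟩ := hx v hv
    have h2 := sum_wr N (m v) hm2
    have h3 : (1 : ℝ) = ∑ ρ ∈ Icc (m v) N, wr N ρ * (2 * (m v : ℝ) + 1) := by
      rw [← sum_mul, h2]
      have : (0 : ℝ) < 2 * (m v : ℝ) + 1 := by positivity
      field_simp
    rw [h3, ← sum_filter]
    have h4 : (range (N + 1)).filter (fun ρ => m v ≤ ρ) = Icc (m v) N := by
      ext ρ; simp only [mem_filter, mem_range, mem_Icc]; omega
    rw [h4]
    refine sum_le_sum fun ρ hρ => ?_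
    rw [mem_Icc] at hρ
    obtain ⟨_, _, _, h5, _⟩ := hsel ρ hρ.1
    refine mul_le_mul_of_nonneg_left ?_ (wr_nonneg _ _)
    unfold crd
    have h6 : (m v : ℝ) ≤ (C.R ρ (vtx (C.K ρ) (x v ρ)) : ℝ) := by exact_mod_cast h5
    linarith
  calc (D.card : ℝ) = ∑ _v ∈ D, (1 : ℝ) := by simp
    _ ≤ ∑ v ∈ D, ∑ ρ ∈ range (N + 1),
        (if m v ≤ ρ then wr N ρ * crd (C.K ρ) (C.R ρ) (x v ρ) else 0) :=
      sum_le_sum h1
    _ = ∑ ρ ∈ range (N + 1), ∑ v ∈ D,
        (if m v ≤ ρ then wr N ρ * crd (C.K ρ) (C.R ρ) (x v ρ) else 0) := sum_comm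
    _ ≤ ∑ ρ ∈ range (N + 1), ∑ x ∈ range N, chargeE C lam ρ x := ?_
  refine sum_le_sum fun ρ hρ => ?_
  rw [← sum_filter]
  set Dρ := D.filter (fun v => m v ≤ ρ) with hDρ
  have hinj : Set.InjOn (fun v => x v ρ) (Dρ : Set ℕ) := by
    have key : ∀ v ∈ Dρ, ∀ v' ∈ Dρ, x v ρ = x v' ρ → ¬ v < v' := by
      intro v hv v' hv' heq hlt
      rw [hDρ, mem_filter] at hv hv'
      obtain ⟨_, _, hsel⟩ := hx v hv.1
      obtain ⟨hrun', _, hsel'⟩ := hx v' hv'.1
      obtain ⟨_, _, h5, _⟩ := hsel ρ hv.2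
      obtain ⟨_, h6, _⟩ := hsel' ρ hv'.2
      rw [heq] at h5
      have h7 := hrun'.high (v + 1) (by omega) (by omega)
      have h8 := (hD v hv.1).1.2.1
      linarith
    intro v hv v' hv' heq
    have h2 := key v hv v' hv' heq
    have h3 := key v' hv' v hv heq.symm
    omega
  rw [← sum_image (f := fun y => wr N ρ * crd (C.K ρ) (C.R ρ) y) hinj]
  calc ∑ y ∈ Dρ.image (fun v => x v ρ), wr N ρ * crd (C.K ρ) (C.R ρ) y
      = ∑ y ∈ Dρ.image (fun v => x v ρ), chargeE C lam ρ y := by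
        refine sum_congr rfl fun y hy => ?_
        rw [mem_image] at hy
        obtain ⟨v, hv, rfl⟩ := hy
        rw [hDρ, mem_filter] at hv
        obtain ⟨_, _, hsel⟩ := hx v hv.1
        obtain ⟨_, _, _, _, h6⟩ := hsel ρ hv.2
        unfold chargeE
        rw [Set.indicator_of_mem]
        exact ⟨loE_le_of_good h6, h6.2.1⟩
    _ ≤ ∑ y ∈ range N, chargeE C lam ρ y := by
        refine sum_le_sum_of_subset_of_nonneg ?_ fun y _ _ => chargeE_nonneg C lam ρ y
        intro y hy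
        rw [mem_image] at hy
        obtain ⟨v, hv, rfl⟩ := hy
        rw [hDρ, mem_filter] at hv
        obtain ⟨_, _, hsel⟩ := hx v hv.1
        exact mem_range.mpr (hsel ρ hv.2).1

/-- **(A)** -/
lemma down_countE (h : IsMaxE N g M) (C : CapsE N g) (lam : ℝ) :
    ∑ v ∈ range N, (Set.Ico (min (M (v + 1)) (M v)) (M v)).indicator (fun _ => (1 : ℝ)) lam ≤
      ∑ v ∈ range N, (Set.Ico (min (g (v + 1)) (g v)) (g v)).indicator (fun _ => (1 : ℝ)) lam +
      ∑ z ∈ (range (N + 1)) ×ˢ (range N), chargeE C lam z.1 z.2 := by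
  classical
  have hind : ∀ G : ℕ → ℝ,
      ∑ v ∈ range N, (Set.Ico (min (G (v + 1)) (G v)) (G v)).indicator (fun _ => (1 : ℝ)) lam =
        (((range N).filter (fun v => IsDown N G lam v)).card : ℝ) := by
    intro G
    rw [card_eq_sum_ones, Nat.cast_sum, sum_filter]
    refine sum_congr rfl fun v hv => ?_
    rw [mem_range] at hv
    by_cases hd : IsDown N G lam v
    · rw [if_pos hd, Set.indicator_of_mem]
      · simp
      · exact ⟨(min_le_left _ _).trans hd.2.1, hd.2.2⟩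
    · rw [if_neg hd, Set.indicator_of_notMem]
      rintro ⟨h1, h2⟩
      refine hd ⟨hv, ?_, h2⟩
      rcases min_le_iff.mp h1 with h3 | h3
      · exact h3
      · linarith
  rw [hind M, hind g, sum_product]
  set S := (range N).filter (fun v => IsDown N M lam v) with hS
  have hsplit : S.card = (S.filter (fun v => Att g M lam v)).card +
      (S.filter (fun v => ¬ Att g M lam v)).card := by
    exact (card_filter_add_card_filter_not (s := S) (fun v => Att g M lam v)).symm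
  have h1 : (S.filter (fun v => Att g M lam v)).card ≤
      ((range N).filter (fun v => IsDown N g lam v)).card := by
    refine card_att_leE (lam := lam) h _ _ ?_ ?_
    · intro v hv
      rw [mem_filter, hS, mem_filter] at hv
      exact ⟨hv.1.2, hv.2⟩
    · intro v hv
      rw [mem_filter, mem_range]
      exact ⟨hv.1, hv⟩
  have h2 := card_det_leE h C (S.filter (fun v => ¬ Att g M lam v)) (lam := lam) (by
    intro v hv
    rw [mem_filter, hS, mem_filter] at hv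
    exact ⟨hv.1.2, hv.2⟩)
  have h3 : (S.card : ℝ) = ((S.filter (fun v => Att g M lam v)).card : ℝ) +
      ((S.filter (fun v => ¬ Att g M lam v)).card : ℝ) := by
    rw [hsplit]; push_cast; ring
  have h4 : ((S.filter (fun v => Att g M lam v)).card : ℝ) ≤
      (((range N).filter (fun v => IsDown N g lam v)).card : ℝ) := by exact_mod_cast h1
  linarith

/-- the sum of `1 / (2 dd + 1)` over the edges of a gap of length `l` -/
noncomputable def gapw (l : ℕ) : ℝ :=
  ∑ i ∈ range l, (1 : ℝ) / (2 * ((min (max i (l - i)) (max (i + 1) (l - i - 1)) : ℕ) : ℝ) + 1)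

/-- the sum of the weights over the gaps -/
lemma sum_gsumE_le (N : ℕ) (g : ℕ → ℝ) {c : ℝ} (hc : ∀ l, 2 ≤ l → l ≤ N → gapw l ≤ c)
    (hc0 : 0 ≤ c) :
    ∑ ρ ∈ range (N + 1), ∑ x ∈ range N, wr N ρ * gsumE N g ρ x ≤ c * dvar N g := by
  classical
  have h1 : ∀ ρ x, wr N ρ * gsumE N g ρ x = ∑ z ∈ pairs N,
      if Cnt ρ x z.1 z.2 then wr N ρ * mu g z.1 z.2 else 0 := by
    intro ρ x
    unfold gsumE
    rw [mul_sum, sum_filter]
  simp only [h1]
  have h2 : ∑ ρ ∈ range (N + 1), ∑ x ∈ range N, ∑ z ∈ pairs N,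
      (if Cnt ρ x z.1 z.2 then wr N ρ * mu g z.1 z.2 else 0) =
      ∑ z ∈ pairs N, ∑ x ∈ range N, ∑ ρ ∈ range (N + 1),
      (if Cnt ρ x z.1 z.2 then wr N ρ * mu g z.1 z.2 else 0) := by
    rw [sum_comm]
    have : ∀ x ∈ range N, ∑ ρ ∈ range (N + 1), ∑ z ∈ pairs N,
      (if Cnt ρ x z.1 z.2 then wr N ρ * mu g z.1 z.2 else 0) =
      ∑ z ∈ pairs N, ∑ ρ ∈ range (N + 1),
      (if Cnt ρ x z.1 z.2 then wr N ρ * mu g z.1 z.2 else 0) :=
      fun x _ => sum_comm
    rw [sum_congr rfl this, sum_comm]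
  rw [h2]
  refine le_trans ?_ (mul_le_mul_of_nonneg_left (sum_mu_le N g) hc0)
  rw [mul_sum]
  refine sum_le_sum fun z hz => ?_
  rw [mem_pairs] at hz
  have hmu := mu_nonneg g z.1 z.2
  have h3 : ∀ x ∈ range N, ∑ ρ ∈ range (N + 1),
      (if Cnt ρ x z.1 z.2 then wr N ρ * mu g z.1 z.2 else 0) =
      if x ∈ Ico z.1 z.2 then (1 : ℝ) / (2 * (dd z.1 z.2 x : ℝ) + 1) * mu g z.1 z.2 else 0 := by
    intro x _
    by_cases hx : x ∈ Ico z.1 z.2
    · rw [if_pos hx]
      rw [mem_Ico] at hx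
      have h4 : (range (N + 1)).filter (fun ρ => Cnt ρ x z.1 z.2) = Icc (dd z.1 z.2 x) N := by
        ext ρ
        rw [mem_filter, mem_range, mem_Icc]
        unfold Cnt
        constructor
        · rintro ⟨h6, _, _, h7⟩
          exact ⟨h7, by omega⟩
        · rintro ⟨h6, h7⟩
          exact ⟨by omega, hx.1, by omega, h6⟩
      have h5 : dd z.1 z.2 x ≤ N := by unfold dd; omega
      rw [← sum_filter, h4, ← sum_mul, sum_wr N _ h5]
    · rw [if_neg hx]
      rw [mem_Ico] at hx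
      refine sum_eq_zero fun ρ _ => ?_
      rw [if_neg]
      rintro ⟨h4, h5, _⟩
      exact hx ⟨h4, by omega⟩
  rw [sum_congr rfl h3, ← sum_filter]
  have h4 : (range N).filter (fun x => x ∈ Ico z.1 z.2) = Ico z.1 z.2 := by
    ext x; simp only [mem_filter, mem_range, mem_Ico]; omega
  rw [h4, ← sum_mul]
  refine mul_le_mul_of_nonneg_right ?_ hmu
  have h5 : ∑ x ∈ Ico z.1 z.2, (1 : ℝ) / (2 * (dd z.1 z.2 x : ℝ) + 1) = gapw (z.2 - z.1) := by
    unfold gapw
    rw [sum_Ico_eq_sum_range]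
    refine sum_congr rfl fun i hi => ?_
    rw [mem_range] at hi
    have h6 : dd z.1 z.2 (z.1 + i) = min (max i (z.2 - z.1 - i)) (max (i + 1) (z.2 - z.1 - i - 1)) := by
      unfold dd
      have h7 : z.1 + i - z.1 = i := by omega
      have h8 : z.2 - (z.1 + i) = z.2 - z.1 - i := by omega
      have h9 : z.1 + i + 1 - z.1 = i + 1 := by omega
      have h10 : z.2 - (z.1 + i + 1) = z.2 - z.1 - i - 1 := by omega
      rw [h7, h8, h9, h10]
    rw [h6]
  rw [h5]
  exact hc _ (by omega) (by omega)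

/-- **The down variation of the maximal function.** -/
theorem dvar_leE (h : IsMaxE N g M) {c : ℝ} (hc : ∀ l, 2 ≤ l → l ≤ N → gapw l ≤ c)
    (hc0 : 0 ≤ c) : dvar N M ≤ (1 + 2 * c) * dvar N g := by
  classical
  obtain ⟨C⟩ := exists_capsE N g
  have h1 := layer_ico2 (range N) (range N) ((range (N + 1)) ×ˢ (range N))
    (fun _ => 1) (fun v => min (M (v + 1)) (M v)) (fun v => M v)
    (fun _ => 1) (fun v => min (g (v + 1)) (g v)) (fun v => g v)
    (fun z => wr N z.1 * crd (C.K z.1) (C.R z.1) z.2)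
    (fun z => loE N g (C.K z.1) (C.R z.1) z.1 z.2) (fun z => C.K z.1 (vtx (C.K z.1) z.2))
    (fun v _ => min_le_right _ _) (fun v _ => min_le_right _ _) (fun z _ => loE_le)
    (fun t => down_countE h C t)
  have h2 : ∑ z ∈ (range (N + 1)) ×ˢ (range N), wr N z.1 *
      crd (C.K z.1) (C.R z.1) z.2 *
        (C.K z.1 (vtx (C.K z.1) z.2) - loE N g (C.K z.1) (C.R z.1) z.1 z.2) ≤
      2 * (c * dvar N g) := by
    calc _ ≤ ∑ z ∈ (range (N + 1)) ×ˢ (range N), 2 * (wr N z.1 * gsumE N g z.1 z.2) := by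
          refine sum_le_sum fun z _ => ?_
          have h3 := crd_mul_leE (N := N) (g := g) (K := C.K z.1) (R := C.R z.1) (ρ := z.1)
            (x := z.2)
          have h4 := mul_le_mul_of_nonneg_left h3 (wr_nonneg N z.1)
          rw [mul_assoc]
          linarith
      _ = 2 * ∑ ρ ∈ range (N + 1), ∑ x ∈ range N, wr N ρ * gsumE N g ρ x := by
          rw [← mul_sum, sum_product]
      _ ≤ 2 * (c * dvar N g) :=
          mul_le_mul_of_nonneg_left (sum_gsumE_le N g hc hc0) zero_le_two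
  have h3 : ∑ v ∈ range N, (1 : ℝ) * (M v - min (M (v + 1)) (M v)) = dvar N M := by
    simp [dvar]
  have h4 : ∑ v ∈ range N, (1 : ℝ) * (g v - min (g (v + 1)) (g v)) = dvar N g := by
    simp [dvar]
  rw [h3, h4] at h1
  linarith

lemma sum_reflectE {v r : ℕ} (hv : Fits N v r) (g : ℕ → ℝ) :
    ∑ i ∈ B v r, g (N - i) = ∑ i ∈ B (N - v) r, g i := by
  have h1 := hv.1
  have h2 := hv.2
  refine sum_nbij' (fun i => N - i) (fun i => N - i) ?_ ?_ ?_ ?_ ?_
  · intro i hi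
    simp only [B, mem_Icc] at hi ⊢
    omega
  · intro i hi
    simp only [B, mem_Icc] at hi ⊢
    omega
  · intro i hi
    simp only [B, mem_Icc] at hi
    omega
  · intro i hi
    simp only [B, mem_Icc] at hi
    omega
  · intro i _
    rfl

lemma isMaxE_reflect (h : IsMaxE N g M) : IsMaxE N (fun i => g (N - i)) (fun i => M (N - i)) := by
  refine ⟨?_, ?_⟩
  · intro v r hv
    rw [sum_reflectE hv]
    exact h.le (N - v) r ⟨by have := hv.1; have := hv.2; omega, by have := hv.1; have := hv.2; omega⟩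
  · intro v hv
    obtain ⟨r, hr, hr'⟩ := h.attained (N - v) (by omega)
    have h1 : Fits N v r := ⟨by have := hr.1; have := hr.2; omega, by have := hr.1; have := hr.2; omega⟩
    refine ⟨r, h1, ?_⟩
    rw [sum_reflectE h1]
    exact hr'

/-- **The variation of the maximal function over the balls inside the path.** -/
theorem var_leE (h : IsMaxE N g M) {c : ℝ} (hc : ∀ l, 2 ≤ l → l ≤ N → gapw l ≤ c)
    (hc0 : 0 ≤ c) :
    ∑ v ∈ range N, |M v - M (v + 1)| ≤ (1 + 2 * c) * ∑ v ∈ range N, |g v - g (v + 1)| := by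
  have h1 := dvar_leE h hc hc0
  have h2 := dvar_leE (isMaxE_reflect h) hc hc0
  rw [dvar_reflect, dvar_reflect] at h2
  rw [dvar_add_uvar, dvar_add_uvar]
  linarith [mul_add (1 + 2 * c) (dvar N g) (uvar N g)]

end Pool.Agent.Helper40_PV
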