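import Pool.Agent.Helper40_PV.Down
import Pool.Agent.Helper34_PV.Gap
import Pool.Agent.Helper34_PV.ClipE

/-!
# The variation of the centred maximal function on paths: constant `1 + 2 log 2`
-/

set_option autoImplicit false

open Finset SimpleGraph

namespace Pool.Agent.Helper40_PV

open Pool.Agent.Helper51_Max Pool.Agent.Helper46_PathVar

variable {N : ℕ} {g M : ℕ → ℝ}

lemma exists_maxE (N : ℕ) (g : ℕ → ℝ) : ∃ ME, IsMaxE N g ME := by
  obtain ⟨K, R, hK⟩ := exists_capE N g N
  refine ⟨K, ?_, ?_⟩
  · intro v r hr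
    exact hK.le v r hr (by have := hr.2; omega)
  · intro v hv
    exact ⟨R v, hK.fits v hv, hK.attained v hv⟩

lemma gapw_le (l : ℕ) : gapw l ≤ Real.log 2 := Pool.Agent.Helper34PV.gap_sum l

/-- The variation of the maximal function on the path `{0, …, N}`. -/
theorem var_le (h : IsMax N g M) :
    ∑ v ∈ range N, |M v - M (v + 1)| ≤
      (1 + 2 * Real.log 2) * ∑ v ∈ range N, |g v - g (v + 1)| := by
  obtain ⟨ME, hE⟩ := exists_maxE N g
  exact (Pool.Agent.Helper34PV.clipE h hE).trans
    (var_leE hE (fun l _ _ => gapw_le l) (Real.log_nonneg (by norm_num)))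

/-- **Main theorem.** -/
theorem main (n : ℕ) (f : Fin n → ℝ) :
    variation (pathGraph n) (maximal (pathGraph n) f) ≤
      (1 + 2 * Real.log 2) * variation (pathGraph n) f := by
  rcases Nat.eq_zero_or_pos n with hn | hn
  · subst hn
    rw [variation_zero, variation_zero]
    simp
  obtain ⟨N, rfl⟩ : ∃ N, n = N + 1 := ⟨n - 1, by omega⟩
  set g : ℕ → ℝ := ext (fun v => |f v|) with hg
  set M : ℕ → ℝ := ext (fun v => maximal (pathGraph (N + 1)) f v) with hM
  have hcard : ∀ v r, (0 : ℝ) < (Helper51_Max.ball (pathGraph (N + 1)) v r).card := fun v r => by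
    exact_mod_cast ball_card_pos (pathGraph (N + 1)) v r
  have hsum : ∀ v : Fin (N + 1), ∀ r, ∑ i ∈ I N v.val r, g i =
      ∑ w ∈ Helper51_Max.ball (pathGraph (N + 1)) v r, |f w| := by
    intro v r
    rw [hg, ← sum_ball]
  have hmax : IsMax N g M := by
    refine ⟨?_, ?_, ?_⟩
    · intro i
      rw [hg]; unfold Helper51_Max.ext
      split_ifs with h
      · exact abs_nonneg _
      · exact le_rfl
    · intro v hv r
      have h0 := hsum ⟨v, by omega⟩ r
      have h1 := avg_le_maximal (pathGraph (N + 1)) f ⟨v, by omega⟩ r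
      have h2 : M v = maximal (pathGraph (N + 1)) f ⟨v, by omega⟩ := by
        rw [hM]; unfold Helper51_Max.ext; rw [dif_pos (by omega)]
      rw [h0, h2, ← card_ball ⟨v, by omega⟩ r]
      rwa [div_le_iff₀ (hcard _ _)] at h1
    · intro v hv
      obtain ⟨r, hr⟩ := exists_maximal (pathGraph (N + 1)) f ⟨v, by omega⟩
      refine ⟨r, ?_⟩
      have h0 := hsum ⟨v, by omega⟩ r
      have h2 : M v = maximal (pathGraph (N + 1)) f ⟨v, by omega⟩ := by
        rw [hM]; unfold Helper51_Max.ext; rw [dif_pos (by omega)]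
      rw [h0, h2, ← card_ball ⟨v, by omega⟩ r, ← hr]
      have := (hcard ⟨v, by omega⟩ r).ne'
      field_simp
  have h1 := var_le hmax
  have h2 : ∑ v ∈ range N, |M v - M (v + 1)| =
      variation (pathGraph (N + 1)) (maximal (pathGraph (N + 1)) f) := by
    rw [variation_path, range_eq_Ico]
  have h3 : ∑ v ∈ range N, |g v - g (v + 1)| ≤ variation (pathGraph (N + 1)) f := by
    rw [variation_path, range_eq_Ico]
    refine sum_le_sum fun v hv => ?_
    rw [mem_Ico] at hv
    rw [hg]; unfold Helper51_Max.ext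
    rw [dif_pos (by omega), dif_pos (by omega), dif_pos (by omega), dif_pos (by omega)]
    exact abs_abs_sub_abs_le_abs_sub _ _
  rw [h2] at h1
  have h5 : (0 : ℝ) ≤ 1 + 2 * Real.log 2 := by
    have := Real.log_nonneg (x := 2) (by norm_num)
    linarith
  exact h1.trans (mul_le_mul_of_nonneg_left h3 h5)

end Pool.Agent.Helper40_PV
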